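import Mathlib

namespace Pool.Agent.P.MP_b23894_gt

/-- Elementary pieces of a link diagram in Morse position, read from top to bottom:
a local maximum, a local minimum, or a crossing (of one of the two types). -/
inductive Kind where
  | cap : Kind
  | cup : Kind
  | cross : Bool → Kind

/-- Number of strands entering the piece from above. -/
def Kind.inW : Kind → ℕ
  | .cap => 0
  | .cup => 2
  | .cross _ => 2

/-- Number of strands leaving the piece below. -/
def Kind.outW : Kind → ℕ
  | .cap => 2
  | .cup => 0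
  | .cross _ => 2

/-- `Valid w D w'`: the word `D` of pieces `(g, i)` (piece `g` placed at strand positions
`i, i+1`, strands numbered from `1`) is a tangle diagram from `w` strands to `w'` strands. -/
def Valid : ℕ → List (Kind × ℕ) → ℕ → Prop
  | w, [], w' => w = w'
  | w, (g, i) :: D, w' => 1 ≤ i ∧ i + g.inW ≤ w + 1 ∧ Valid (w - g.inW + g.outW) D w'

/-- The local moves: planar isotopies and the three Reidemeister moves. -/
inductive Move : List (Kind × ℕ) → List (Kind × ℕ) → Prop
  | comm (g h : Kind) (i k : ℕ) :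
      Move [(g, i), (h, i + g.outW + k)] [(h, i + g.inW + k), (g, i)]
  | zig (i : ℕ) : Move [(.cap, i + 1), (.cup, i)] []
  | zag (i : ℕ) : Move [(.cap, i), (.cup, i + 1)] []
  | slideCap (s : Bool) (i : ℕ) :
      Move [(.cap, i + 1), (.cross s, i)] [(.cap, i), (.cross (!s), i + 1)]
  | slideCup (s : Bool) (i : ℕ) :
      Move [(.cross s, i), (.cup, i + 1)] [(.cross (!s), i + 1), (.cup, i)]
  | r1Cap (s : Bool) (i : ℕ) : Move [(.cap, i), (.cross s, i)] [(.cap, i)]
  | r1Cup (s : Bool) (i : ℕ) : Move [(.cross s, i), (.cup, i)] [(.cup, i)]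
  | r2 (s : Bool) (i : ℕ) : Move [(.cross s, i), (.cross (!s), i)] []
  | r3 (s : Bool) (i : ℕ) :
      Move [(.cross s, i), (.cross s, i + 1), (.cross s, i)]
        [(.cross s, i + 1), (.cross s, i), (.cross s, i + 1)]

/-- One move applied inside a link diagram. -/
def Step (D D' : List (Kind × ℕ)) : Prop :=
  Valid 0 D 0 ∧ Valid 0 D' 0 ∧
    ∃ u l r v, Move l r ∧ D = u ++ l ++ v ∧ D' = u ++ r ++ v

/-- Number of crossings of a diagram. -/
def crossings : List (Kind × ℕ) → ℕ
  | [] => 0
  | (.cross _, _) :: D => crossings D + 1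
  | (.cap, _) :: D => crossings D
  | (.cup, _) :: D => crossings D

/-- Crossing number of the link represented by `D`. -/
noncomputable def crossingNumber (D : List (Kind × ℕ)) : ℕ :=
  sInf {c | ∃ D', Relation.EqvGen Step D D' ∧ crossings D' = c}

/-- The braid word `σ_k ^ e`. -/
def sigmaPow (k : ℕ) (e : ℤ) : List (Kind × ℕ) :=
  List.replicate e.natAbs (.cross (decide (0 < e)), k)

/-- Number of twist boxes in row `i`. -/
def rowLen (m i : ℕ) : ℕ := if Odd i then m - 1 else m

/-- The row `b_i` of the standard form of width `m`. -/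
def row (m : ℕ) (a : ℕ → ℕ → ℤ) (i : ℕ) : List (Kind × ℕ) :=
  (List.range' 1 (rowLen m i)).flatMap fun j =>
    sigmaPow (if Odd i then 2 * j else 2 * j - 1) (-a i j)

/-- The plat closure of `b_1 ⋯ b_n`. -/
def plat (m n : ℕ) (a : ℕ → ℕ → ℤ) : List (Kind × ℕ) :=
  List.replicate m (.cap, 1) ++ (List.range' 1 n).flatMap (row m a) ++ List.replicate m (.cup, 1)

end Pool.Agent.P.MP_b23894_gt
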