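import Pool.Agent.P.MP_b23894_gt.Defs

namespace Pool.Agent.P.MP_b23894_gt

theorem valid_append {l r : List (Kind × ℕ)} : ∀ {w w' w'' : ℕ},
    Valid w l w' → Valid w' r w'' → Valid w (l ++ r) w'' := by
  induction l with
  | nil => intro w w' w'' h1 h2; simp only [Valid] at h1; subst h1; simpa using h2
  | cons x l ih =>
    intro w w' w'' h1 h2
    obtain ⟨g, i⟩ := x
    simp only [Valid, List.cons_append] at h1 ⊢
    exact ⟨h1.1, h1.2.1, ih h1.2.2 h2⟩

/-- tangle equivalence -/
def TE (w : ℕ) (l r : List (Kind × ℕ)) (w' : ℕ) : Prop :=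
  Valid w l w' ∧ Valid w r w' ∧ ∀ u v, Valid 0 u w → Valid w' v 0 →
    Relation.EqvGen Step (u ++ l ++ v) (u ++ r ++ v)

theorem TE.of_move {w w' : ℕ} {l r : List (Kind × ℕ)} (h : Move l r) (hl : Valid w l w')
    (hr : Valid w r w') : TE w l r w' :=
  ⟨hl, hr, fun u v hu hv => Relation.EqvGen.rel _ _
    ⟨valid_append (valid_append hu hl) hv, valid_append (valid_append hu hr) hv,
      u, l, r, v, h, rfl, rfl⟩⟩

theorem TE.refl {w w' : ℕ} {l : List (Kind × ℕ)} (hl : Valid w l w') : TE w l l w' :=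
  ⟨hl, hl, fun _ _ _ _ => Relation.EqvGen.refl _⟩

theorem TE.symm {w w' : ℕ} {l r : List (Kind × ℕ)} (h : TE w l r w') : TE w r l w' :=
  ⟨h.2.1, h.1, fun u v hu hv => Relation.EqvGen.symm _ _ (h.2.2 u v hu hv)⟩

theorem TE.trans {w w' : ℕ} {l r s : List (Kind × ℕ)} (h : TE w l r w') (h' : TE w r s w') :
    TE w l s w' :=
  ⟨h.1, h'.2.1, fun u v hu hv =>
    Relation.EqvGen.trans _ _ _ (h.2.2 u v hu hv) (h'.2.2 u v hu hv)⟩

theorem TE.ctx {w₀ w w' w₁ : ℕ} {l r p q : List (Kind × ℕ)} (h : TE w l r w')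
    (hp : Valid w₀ p w) (hq : Valid w' q w₁) : TE w₀ (p ++ l ++ q) (p ++ r ++ q) w₁ := by
  refine ⟨valid_append (valid_append hp h.1) hq, valid_append (valid_append hp h.2.1) hq, ?_⟩
  intro u v hu hv
  have := h.2.2 (u ++ p) (q ++ v) (valid_append hu hp) (valid_append hq hv)
  simpa [List.append_assoc] using this

/-- a list of crossings at positions in `[lo, W-1]` -/
def Braid (lo W : ℕ) (R : List (Kind × ℕ)) : Prop :=
  ∀ x ∈ R, (∃ s, x.1 = .cross s) ∧ lo ≤ x.2 ∧ x.2 + 1 ≤ W

theorem Braid.valid {lo W : ℕ} (hlo : 1 ≤ lo) : ∀ {R : List (Kind × ℕ)}, Braid lo W R →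
    Valid W R W
  | [], _ => rfl
  | (g, i) :: R, h => by
    obtain ⟨⟨s, hs⟩, h1, h2⟩ := h (g, i) (by simp)
    simp only at hs h1 h2
    subst hs
    have hR : Braid lo W R := fun x hx => h x (by simp [hx])
    refine ⟨by omega, by simp [Kind.inW]; omega, ?_⟩
    have : W - (Kind.cross s).inW + (Kind.cross s).outW = W := by
      simp [Kind.inW, Kind.outW]; omega
    rw [this]
    exact Braid.valid hlo hR

theorem braid_replicate {lo W k e : ℕ} (s : Bool) (h1 : lo ≤ k) (h2 : k + 1 ≤ W) :
    Braid lo W (List.replicate e (.cross s, k)) := by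
  intro x hx
  rw [List.mem_replicate] at hx
  obtain ⟨-, rfl⟩ := hx
  exact ⟨⟨s, rfl⟩, h1, h2⟩

theorem braid_one {W k : ℕ} (s : Bool) (h1 : 1 ≤ k) (h2 : k + 1 ≤ W) :
    Valid W [(.cross s, k)] W :=
  Braid.valid le_rfl (braid_replicate (e := 1) s h1 h2)

theorem braid_two {W k k' : ℕ} (s s' : Bool) (h1 : 1 ≤ k) (h2 : k + 1 ≤ W)
    (h1' : 1 ≤ k') (h2' : k' + 1 ≤ W) :
    Valid W [(.cross s, k), (.cross s', k')] W :=
  valid_append (braid_one s h1 h2) (braid_one s' h1' h2')

theorem braid_three {W k k' k'' : ℕ} (s s' s'' : Bool) (h1 : 1 ≤ k) (h2 : k + 1 ≤ W)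
    (h1' : 1 ≤ k') (h2' : k' + 1 ≤ W) (h1'' : 1 ≤ k'') (h2'' : k'' + 1 ≤ W) :
    Valid W [(.cross s, k), (.cross s', k'), (.cross s'', k'')] W :=
  valid_append (braid_one s h1 h2) (braid_two s' s'' h1' h2' h1'' h2'')

theorem te_comm {W : ℕ} (s : Bool) (hW : 2 ≤ W) : ∀ {R : List (Kind × ℕ)}, Braid 3 W R →
    TE W (R ++ [(.cross s, 1)]) ((.cross s, 1) :: R) W
  | [], _ => TE.refl (braid_one s le_rfl hW)
  | (g, i) :: R, h => by
    obtain ⟨⟨t, ht⟩, h1, h2⟩ := h (g, i) (by simp)
    simp only at ht h1 h2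
    subst ht
    have hR : Braid 3 W R := fun x hx => h x (by simp [hx])
    have ih := te_comm s hW hR
    have e1 := ih.ctx (p := [(.cross t, i)]) (q := []) (braid_one t (by omega) h2) rfl
    obtain ⟨k, rfl⟩ : ∃ k, i = 1 + 2 + k := ⟨i - 3, by omega⟩
    have m := Move.comm (.cross s) (.cross t) 1 k
    simp only [Kind.outW, Kind.inW] at m
    have e2 := (TE.of_move (w := W) (w' := W) m
      (braid_two s t le_rfl hW (by omega) h2) (braid_two t s (by omega) h2 le_rfl hW)).symm.ctx
      (p := []) (q := R) rfl (Braid.valid (by norm_num) hR)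
    simp only [List.append_nil, List.nil_append, List.cons_append] at e1 e2 ⊢
    exact e1.trans e2

theorem te_braid {W : ℕ} (s : Bool) (hW : 3 ≤ W) : ∀ e : ℕ,
    TE W (List.replicate e (.cross s, 2) ++ [(.cross s, 1), (.cross s, 2)])
      ([(.cross s, 1), (.cross s, 2)] ++ List.replicate e (.cross s, 1)) W
  | 0 => TE.refl (braid_two s s le_rfl (by omega) (by omega) hW)
  | e + 1 => by
    have ih := te_braid s hW e
    have e1 := ih.ctx (p := [(.cross s, 2)]) (q := []) (braid_one s (by omega) hW) rfl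
    have e2 := (TE.of_move (w := W) (w' := W) (Move.r3 s 1)
      (braid_three s s s le_rfl (by omega) (by omega) hW le_rfl (by omega))
      (braid_three s s s (by omega) hW le_rfl (by omega) (by omega) hW)).symm.ctx
      (p := []) (q := List.replicate e (.cross s, 1)) rfl
      (Braid.valid le_rfl (braid_replicate s le_rfl (by omega)))
    simp only [List.append_nil, List.nil_append, List.cons_append, List.replicate_succ] at e1 e2 ⊢
    exact e1.trans e2

theorem valid_cap {w k : ℕ} (h1 : 1 ≤ k) (h2 : k ≤ w + 1) : Valid w [(.cap, k)] (w + 2) := by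
  simp [Valid, Kind.inW, Kind.outW]; omega

theorem te_key {w : ℕ} (s : Bool) (hw : 1 ≤ w) (e : ℕ) :
    TE w ([(.cap, 1)] ++ List.replicate (e + 1) (.cross s, 2) ++ [(.cross s, 1)])
      ([(.cap, 2)] ++ List.replicate e (.cross s, 1) ++ [(.cross (!s), 2)]) (w + 2) := by
  have hc1 : Valid w [(.cap, 1)] (w + 2) := valid_cap le_rfl (by omega)
  have hc2 : Valid w [(.cap, 2)] (w + 2) := valid_cap (by omega) (by omega)
  have hrep : ∀ (k e : ℕ) (t : Bool), 1 ≤ k → k ≤ 2 →
      Valid (w + 2) (List.replicate e (.cross t, k)) (w + 2) := fun k e t h1 h2 =>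
    Braid.valid le_rfl (braid_replicate t h1 (by omega))
  have h1 : ∀ (k : ℕ) (t : Bool), 1 ≤ k → k ≤ 2 → Valid (w + 2) [(.cross t, k)] (w + 2) :=
    fun k t h1 h2 => braid_one t h1 (by omega)
  -- insert σ2 σ2⁻¹
  have e1 := (TE.of_move (w := w + 2) (w' := w + 2) (Move.r2 s 2)
    (braid_two s (!s) (by omega) (by omega) (by omega) (by omega)) rfl).symm.ctx
    (p := [(.cap, 1)] ++ List.replicate (e + 1) (.cross s, 2) ++ [(.cross s, 1)]) (q := [])
    (valid_append (valid_append hc1 (hrep 2 _ s (by omega) le_rfl)) (h1 1 s le_rfl (by omega))) rfl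
  have e2 := (te_braid (W := w + 2) s (by omega) (e + 1)).ctx (p := [(.cap, 1)])
    (q := [(.cross (!s), 2)]) hc1 (h1 2 _ (by omega) le_rfl)
  have e3 := (TE.of_move (w := w) (w' := w + 2) (Move.r1Cap s 1)
    (valid_append hc1 (h1 1 s le_rfl (by omega))) hc1).ctx (p := [])
    (q := [(.cross s, 2)] ++ List.replicate (e + 1) (.cross s, 1) ++ [(.cross (!s), 2)]) rfl
    (valid_append (valid_append (h1 2 s (by omega) le_rfl) (hrep 1 _ s le_rfl (by omega)))
      (h1 2 _ (by omega) le_rfl))
  have m4 := Move.slideCap (!s) 1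
  simp only [Bool.not_not] at m4
  have e4 := (TE.of_move (w := w) (w' := w + 2) m4
    (valid_append hc2 (h1 1 _ le_rfl (by omega)))
    (valid_append hc1 (h1 2 s (by omega) le_rfl))).symm.ctx (p := [])
    (q := List.replicate (e + 1) (.cross s, 1) ++ [(.cross (!s), 2)]) rfl
    (valid_append (hrep 1 _ s le_rfl (by omega)) (h1 2 _ (by omega) le_rfl))
  have m5 := Move.r2 (!s) 1
  simp only [Bool.not_not] at m5
  have e5 := (TE.of_move (w := w + 2) (w' := w + 2) m5
    (braid_two (!s) s (by omega) (by omega) (by omega) (by omega)) rfl).ctx (p := [(.cap, 2)])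
    (q := List.replicate e (.cross s, 1) ++ [(.cross (!s), 2)]) hc2
    (valid_append (hrep 1 _ s le_rfl (by omega)) (h1 2 _ (by omega) le_rfl))
  simp only [List.append_nil, List.nil_append, List.cons_append, List.append_assoc,
    List.replicate_succ] at e1 e2 e3 e4 e5 ⊢
  exact e1.trans (e2.trans (e3.trans (e4.trans e5)))

theorem crossings_append (l r : List (Kind × ℕ)) :
    crossings (l ++ r) = crossings l + crossings r := by
  induction l with
  | nil => simp [crossings]
  | cons x l ih =>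
    obtain ⟨g, i⟩ := x
    cases g <;> simp [crossings, ih]
    omega

theorem crossings_replicate_cross (e k : ℕ) (s : Bool) :
    crossings (List.replicate e (.cross s, k)) = e := by
  induction e with
  | zero => rfl
  | succ e ih => simp [List.replicate_succ, crossings, ih]

theorem crossings_replicate_cap (e k : ℕ) : crossings (List.replicate e (.cap, k)) = 0 := by
  induction e with
  | zero => rfl
  | succ e ih => simp [List.replicate_succ, crossings, ih]

theorem crossings_replicate_cup (e k : ℕ) : crossings (List.replicate e (.cup, k)) = 0 := by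
  induction e with
  | zero => rfl
  | succ e ih => simp [List.replicate_succ, crossings, ih]

theorem crossings_flatMap (f : ℕ → List (Kind × ℕ)) (n : ℕ) :
    crossings ((List.range' 1 n).flatMap f) = ∑ i ∈ Finset.Icc 1 n, crossings (f i) := by
  induction n with
  | zero => simp [crossings]
  | succ n ih =>
    rw [List.range'_concat, List.flatMap_append, crossings_append, ih,
      Finset.sum_Icc_succ_top (by omega)]
    simp [add_comm]

theorem crossings_plat (m n : ℕ) (a : ℕ → ℕ → ℤ) :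
    crossings (plat m n a) =
      ∑ i ∈ Finset.Icc 1 n, ∑ j ∈ Finset.Icc 1 (rowLen m i), (a i j).natAbs := by
  unfold plat
  rw [crossings_append, crossings_append, crossings_replicate_cap, crossings_replicate_cup,
    crossings_flatMap]
  simp only [zero_add, add_zero]
  refine Finset.sum_congr rfl fun i _ => ?_
  unfold row
  rw [crossings_flatMap]
  refine Finset.sum_congr rfl fun j _ => ?_
  simp [sigmaPow, crossings_replicate_cross]

theorem valid_caps : ∀ k w : ℕ, Valid w (List.replicate k (.cap, 1)) (w + 2 * k)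
  | 0, w => rfl
  | k + 1, w => by
    have := valid_append (valid_cap (w := w) (k := 1) le_rfl (by omega)) (valid_caps k (w + 2))
    have e : w + 2 + 2 * k = w + 2 * (k + 1) := by ring
    rw [e] at this
    simpa [List.replicate_succ] using this

theorem valid_cups : ∀ k : ℕ, Valid (2 * k) (List.replicate k (.cup, 1)) 0
  | 0 => rfl
  | k + 1 => by
    simp only [List.replicate_succ, Valid, Kind.inW, Kind.outW]
    refine ⟨le_rfl, by omega, ?_⟩
    have e : 2 * (k + 1) - 2 + 0 = 2 * k := by omega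
    rw [e]
    exact valid_cups k

theorem braid_sigmaPow {lo W k : ℕ} (e : ℤ) (h1 : lo ≤ k) (h2 : k + 1 ≤ W) :
    Braid lo W (sigmaPow k e) := braid_replicate _ h1 h2

theorem braid_flatMap {lo W : ℕ} {L : List ℕ} {f : ℕ → List (Kind × ℕ)}
    (h : ∀ j ∈ L, Braid lo W (f j)) : Braid lo W (L.flatMap f) := by
  intro x hx
  rw [List.mem_flatMap] at hx
  obtain ⟨j, hj, hx⟩ := hx
  exact h j hj x hx

theorem braid_row (m : ℕ) (a : ℕ → ℕ → ℤ) (i : ℕ) : Braid 1 (2 * m) (row m a i) := by
  unfold row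
  refine braid_flatMap fun j hj => ?_
  rw [List.mem_range'_1] at hj
  unfold rowLen at hj
  by_cases hi : Odd i
  · simp only [hi, if_true] at hj ⊢
    exact braid_sigmaPow _ (by omega) (by omega)
  · simp only [hi, if_false] at hj ⊢
    exact braid_sigmaPow _ (by omega) (by omega)

theorem main (m n : ℕ) (a : ℕ → ℕ → ℤ) (hm : 2 ≤ m) (hn : 2 ≤ n) (h : 0 < a 1 1 * a 2 1) :
    crossingNumber (plat m n a) <
      ∑ i ∈ Finset.Icc 1 n, ∑ j ∈ Finset.Icc 1 (rowLen m i), (a i j).natAbs := by
  rw [← crossings_plat]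
  obtain ⟨m, rfl⟩ : ∃ k, m = k + 2 := ⟨m - 2, by omega⟩
  obtain ⟨n, rfl⟩ : ∃ k, n = k + 2 := ⟨n - 2, by omega⟩
  set s : Bool := decide (0 < -a 1 1) with hs
  have hs2 : decide (0 < -a 2 1) = s := by
    rw [hs]
    rcases pos_and_pos_or_neg_and_neg_of_mul_pos h with ⟨h1, h2⟩ | ⟨h1, h2⟩
    · simp [h1.le, h2.le, not_lt.mpr]
    · simp [h1, h2]
  have h11 : a 1 1 ≠ 0 := by rintro h0; simp [h0] at h
  have h21 : a 2 1 ≠ 0 := by rintro h0; simp [h0] at h
  obtain ⟨e, he⟩ : ∃ e, (-a 1 1).natAbs = e + 1 := ⟨(-a 1 1).natAbs - 1, by omega⟩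
  obtain ⟨f, hf⟩ : ∃ f, (-a 2 1).natAbs = f + 1 := ⟨(-a 2 1).natAbs - 1, by omega⟩
  set R1 : List (Kind × ℕ) := (List.range' 2 m).flatMap fun j => sigmaPow (2 * j) (-a 1 j) with hR1
  set R2 : List (Kind × ℕ) := (List.range' 2 (m + 1)).flatMap fun j =>
    sigmaPow (2 * j - 1) (-a 2 j) with hR2
  set R3 : List (Kind × ℕ) := (List.range' 3 n).flatMap (row (m + 2) a) with hR3
  have hrow1 : row (m + 2) a 1 = List.replicate (e + 1) (.cross s, 2) ++ R1 := by
    unfold row rowLen
    simp only [odd_one, if_true]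
    have : m + 2 - 1 = m + 1 := by omega
    rw [this, List.range'_succ, List.flatMap_cons]
    simp [sigmaPow, he, hs, hR1]
  have hrow2 : row (m + 2) a 2 = List.replicate (f + 1) (.cross s, 1) ++ R2 := by
    unfold row rowLen
    have h2 : ¬ Odd 2 := by decide
    simp only [h2, if_false]
    rw [List.range'_succ, List.flatMap_cons]
    simp only [sigmaPow, hf, hs2, hR2]
  have hB1 : Braid 3 (2 * (m + 2)) R1 := by
    refine braid_flatMap fun j hj => ?_
    rw [List.mem_range'_1] at hj
    exact braid_sigmaPow _ (by omega) (by omega)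
  have hB2 : Braid 1 (2 * (m + 2)) R2 := by
    refine braid_flatMap fun j hj => ?_
    rw [List.mem_range'_1] at hj
    exact braid_sigmaPow _ (by omega) (by omega)
  have hB3 : Braid 1 (2 * (m + 2)) R3 := braid_flatMap fun i _ => braid_row _ _ _
  set P : List (Kind × ℕ) := List.replicate (m + 1) (.cap, 1) with hP
  set Q : List (Kind × ℕ) := List.replicate f (.cross s, 1) ++ R2 ++ R3 ++
    List.replicate (m + 2) (.cup, 1) with hQ
  have hplat : plat (m + 2) (n + 2) a =
      P ++ ([(.cap, 1)] ++ List.replicate (e + 1) (.cross s, 2) ++ (R1 ++ [(.cross s, 1)]) ++ [])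
        ++ Q := by
    unfold plat
    rw [List.range'_succ, List.range'_succ, List.flatMap_cons, List.flatMap_cons, hrow1, hrow2,
      List.replicate_succ' (n := m + 1)]
    simp [hP, hQ, hR3, List.replicate_succ]
  have hvP : Valid 0 P (2 * (m + 1)) := by simpa using valid_caps (m + 1) 0
  have hw : 2 * (m + 1) + 2 = 2 * (m + 2) := by ring
  have hvQ : Valid (2 * (m + 2)) Q 0 :=
    valid_append (valid_append (valid_append
      (Braid.valid le_rfl (braid_replicate s le_rfl (by omega))) (Braid.valid le_rfl hB2))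
      (Braid.valid le_rfl hB3)) (valid_cups _)
  have e1 := (te_comm (W := 2 * (m + 2)) s (by omega) hB1).ctx
    (p := [(.cap, 1)] ++ List.replicate (e + 1) (.cross s, 2)) (q := []) (w₀ := 2 * (m + 1))
    (valid_append (hw ▸ valid_cap le_rfl (by omega))
      (Braid.valid le_rfl (braid_replicate s (by omega) (by omega)))) rfl
  have e2 := (hw ▸ te_key (w := 2 * (m + 1)) s (by omega) e).ctx (p := []) (q := R1) rfl
    (Braid.valid (by norm_num) hB1)
  have e12 : TE (2 * (m + 1))
      ([(.cap, 1)] ++ List.replicate (e + 1) (.cross s, 2) ++ (R1 ++ [(.cross s, 1)]) ++ [])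
      ([(.cap, 2)] ++ List.replicate e (.cross s, 1) ++ [(.cross (!s), 2)] ++ R1) (2 * (m + 2)) := by
    refine e1.trans ?_
    simpa using e2
  have hE := e12.2.2 P Q hvP hvQ
  rw [← hplat] at hE
  refine lt_of_le_of_lt (Nat.sInf_le ⟨_, hE, rfl⟩) ?_
  rw [hplat]
  simp only [crossings_append, crossings_replicate_cross, crossings]
  omega

end Pool.Agent.P.MP_b23894_gt
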